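import Pool.Agent.W2helper82.OA.Stm

/-!
# Piece P16: locality, monotonicity and translation of `RichLoc`
-/

set_option autoImplicit false

namespace Pool.Agent.W2helper82.OA.P16

open H974 H12S Finset H984P H984N
open Pool.Agent.Y989.FR (Awy AE)

/-! ### Locality -/

theorem dang_congr {o : Vtx} {s : ℕ} {F G : Finset Edg} (h : F ∩ B0 o s = G ∩ B0 o s) (d : Vtx) :
    Dang o s F d ↔ Dang o s G d := by
  unfold Dang
  have e : (↑F ∩ ↑(B0 o s) : Set Edg) = ↑G ∩ ↑(B0 o s) := by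
    rw [← Finset.coe_inter, ← Finset.coe_inter, h]
  rw [e]

theorem tbc_congr {a b c d : ℤ} {F G I : Finset Edg} (hI : TBE a b c d ⊆ I)
    (h : F ∩ I = G ∩ I) : TBc a b c d F ↔ TBc a b c d G := by
  rw [TBc_local hI, h, ← TBc_local hI]

theorem inEv_congr {o : Vtx} {g s c M B : ℕ} {v : Vtx} {F G : Finset Edg}
    (h : F ∩ IE o g s c = G ∩ IE o g s c) (hF : InEv o g s c M B v F) :
    InEv o g s c M B v G := by
  have h0 : F ∩ B0 o s = G ∩ B0 o s := by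
    have e : ∀ H : Finset Edg, H ∩ B0 o s = (H ∩ IE o g s c) ∩ B0 o s := by
      intro H
      rw [Finset.inter_assoc]
      congr 1
      symm
      apply Finset.inter_eq_right.2
      exact Finset.subset_union_left
    rw [e F, e G, h]
  have hd := fun d => dang_congr h0 d
  have hsub1 : TBE (o.1 - 5 * g) (o.1 + 3 * g) (o.2 + c + 2 * g) (o.2 + c + 3 * g) ⊆
      IE o g s c := by
    refine TBE_subset_RE.trans (subset_trans ?_ Finset.subset_union_right)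
    exact RE_subset (by omega) (by omega) (by omega) (by omega)
  have hsub2 : TBE (o.1 - 5 * g) (o.1 + 3 * g) (o.2 + c - 3 * g) (o.2 + c - 2 * g) ⊆
      IE o g s c := by
    refine TBE_subset_RE.trans (subset_trans ?_ Finset.subset_union_right)
    exact RE_subset (by omega) (by omega) (by omega) (by omega)
  obtain ⟨⟨x, hx, hp⟩, hu, hl, hn⟩ := hF
  refine ⟨⟨x, hx, hp.mono ?_⟩, ?_, ?_, ?_⟩
  · rintro e ⟨h1, h2, h3⟩
    exact ⟨h1, h2, fun d hd1 hd2 => h3 d ((hd d).2 hd1) hd2⟩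
  · intro h1
    exact hu ((tbc_congr hsub1 h).2 h1)
  · intro h1
    exact hl ((tbc_congr hsub2 h).2 h1)
  · intro d hd1 hd2
    exact hn d ((hd d).2 hd1) hd2

theorem outEv_mono {o : Vtx} {g s c : ℕ} {v : Vtx} {F G : Finset Edg}
    (h : ∀ e ∈ F, e ∈ RE (o.1 - g) (o.1 + 2 * s) (o.2 - s) (o.2 + 2 * s) → e ∈ G)
    (hF : OutEv o g s c v F) : OutEv o g s c v G := by
  obtain ⟨w, hw, hb, hp⟩ := hF
  refine ⟨w, hw, hb, hp.mono ?_⟩
  rintro e ⟨h1, h2, h3⟩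
  exact ⟨h e h1 h2, h2, h3⟩

/-! ### Translation -/

theorem src_trl (a b : ℤ) (e : Edg) : src ((trl a b).φ e) = (trl a b).ψ (src e) := by
  obtain ⟨x, y, _ | _⟩ := e <;> simp

theorem tgt_trl (a b : ℤ) (e : Edg) : tgt ((trl a b).φ e) = (trl a b).ψ (tgt e) := by
  obtain ⟨x, y, _ | _⟩ := e <;> simp <;> ring

theorem sd_trl (a b : ℤ) (u v : Vtx) : sd ((trl a b).ψ u) ((trl a b).ψ v) = sd u v := by
  obtain ⟨x, y⟩ := u
  obtain ⟨x', y'⟩ := v
  unfold sd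
  rw [trl_ψ, trl_ψ]
  simp only [add_sub_add_right_eq_sub]

theorem awy_trl (a b : ℤ) {M B k : ℕ} {v c x : Vtx} (h : Awy M B k v c x) :
    Awy M B k ((trl a b).ψ v) ((trl a b).ψ c) ((trl a b).ψ x) := by
  unfold Awy at h ⊢
  rw [sd_trl, sd_trl]
  exact h

theorem bdB_trl (a b : ℤ) {v x : Vtx} {k : ℕ} (h : x ∈ bdB v k) :
    (trl a b).ψ x ∈ bdB ((trl a b).ψ v) k := by
  obtain ⟨x, y⟩ := x
  obtain ⟨x', y'⟩ := v
  unfold bdB at h ⊢
  rw [Set.mem_setOf_eq] at h ⊢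
  rw [trl_ψ, trl_ψ]
  simp only [add_sub_add_right_eq_sub]
  exact h

theorem mem_mp_φ (a b : ℤ) (F : Finset Edg) (e : Edg) :
    (trl a b).φ e ∈ (trl a b).mp F ↔ e ∈ F := by
  rw [LSym.mem_mp, Equiv.symm_apply_apply]

theorem re_trl (a b w x y z : ℤ) {w' x' y' z' : ℤ} (h1 : w' = w + a) (h2 : x' = x + a)
    (h3 : y' = y + b) (h4 : z' = z + b) (e : Edg) :
    (trl a b).φ e ∈ RE w' x' y' z' ↔ e ∈ RE w x y z := by
  subst h1 h2 h3 h4
  rw [← trl_RE, mem_mp_φ]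

theorem blk_trl (a b : ℤ) (v : Vtx) (k : ℕ) (e : Edg) :
    (trl a b).φ e ∈ blk ((trl a b).ψ v) k ↔ e ∈ blk v k := by
  obtain ⟨x, y⟩ := v
  unfold blk
  rw [trl_ψ]
  exact re_trl a b _ _ _ _ (by simp only; ring) (by simp only; ring) (by simp only; ring)
    (by simp only; ring) e

theorem dang_trl (o : Vtx) (s : ℕ) (F : Finset Edg) (d : Vtx) :
    Dang o s ((trl o.1 o.2).mp F) ((trl o.1 o.2).ψ d) ↔ Dang (0, 0) s F d := by
  have hB : B0 o s = (trl o.1 o.2).mp (B0 (0, 0) s) := by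
    unfold B0
    rw [trl_RE]
    congr 1 <;> simp only <;> ring
  have hR : ∀ a, Reach (↑((trl o.1 o.2).mp F) ∩ ↑(B0 o s)) ((trl o.1 o.2).ψ d)
      ((trl o.1 o.2).ψ a) ↔ Reach (↑F ∩ ↑(B0 (0, 0) s)) d a := by
    intro a
    rw [hB, ← LSym.image_inter, LSym.reach_iff]
  unfold Dang
  constructor
  · rintro ⟨a, h1, h2, h3⟩
    obtain ⟨a', rfl⟩ := (trl o.1 o.2).ψ.surjective a
    obtain ⟨x, y⟩ := a'
    rw [trl_ψ] at h1 h2
    unfold inR at h1
    simp only at h1 h2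
    refine ⟨(x, y), ?_, ?_, (hR _).1 h3⟩
    · unfold inR
      simp only
      omega
    · simp only
      omega
  · rintro ⟨⟨x, y⟩, h1, h2, h3⟩
    refine ⟨(trl o.1 o.2).ψ (x, y), ?_, ?_, (hR _).2 h3⟩
    · rw [trl_ψ]
      unfold inR at h1 ⊢
      simp only at h1 ⊢
      omega
    · rw [trl_ψ]
      simp only at h2 ⊢
      omega

theorem deep_trl (o : Vtx) (g s : ℕ) (d : Vtx) :
    Deep o g s ((trl o.1 o.2).ψ d) ↔ Deep (0, 0) g s d := by
  obtain ⟨x, y⟩ := d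
  rw [trl_ψ]
  unfold Deep inR
  simp only
  omega

theorem inEv_trl (o : Vtx) {g s c M B : ℕ} {v : Vtx} {F : Finset Edg}
    (h : InEv (0, 0) g s c M B v F) :
    InEv o g s c M B ((trl o.1 o.2).ψ v) ((trl o.1 o.2).mp F) := by
  obtain ⟨⟨x, hx, hp⟩, hu, hl, hn⟩ := h
  refine ⟨⟨(trl o.1 o.2).ψ x, bdB_trl _ _ hx, ?_⟩, ?_, ?_, ?_⟩
  · have h1 := (trl o.1 o.2).reach hp
    have e : (trl o.1 o.2).ψ ((0 : ℤ) + 2 * g, (0 : ℤ) + c) = (o.1 + 2 * g, o.2 + c) := by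
      rw [trl_ψ]
      ext <;> simp only <;> ring
    simp only at h1
    rw [e] at h1
    refine h1.mono ?_
    rintro _ ⟨e, ⟨h2, h3, h4⟩, rfl⟩
    refine ⟨?_, ?_, ?_⟩
    · refine (re_trl o.1 o.2 _ _ _ _ ?_ ?_ ?_ ?_ e).2 h2 <;> ring
    · rw [blk_trl]
      exact h3
    · intro d' hd1 hd2
      obtain ⟨d, rfl⟩ := (trl o.1 o.2).ψ.surjective d'
      rw [dang_trl] at hd1
      rw [deep_trl] at hd2
      obtain ⟨h5, h6⟩ := h4 d hd1 hd2
      rw [src_trl, tgt_trl]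
      exact ⟨awy_trl _ _ h5, awy_trl _ _ h6⟩
  · intro h1
    apply hu
    have h2 := TBc_trl (s := -o.1) (t := -o.2) h1
    rw [trl_trl] at h2
    convert h2 using 1 <;> simp only <;> ring
  · intro h1
    apply hl
    have h2 := TBc_trl (s := -o.1) (t := -o.2) h1
    rw [trl_trl] at h2
    convert h2 using 1 <;> simp only <;> ring
  · intro d' hd1 hd2
    obtain ⟨d, rfl⟩ := (trl o.1 o.2).ψ.surjective d'
    rw [dang_trl] at hd1
    rw [deep_trl] at hd2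
    have h1 := hn d hd1 hd2
    obtain ⟨x, y⟩ := d
    rw [trl_ψ]
    simp only at h1 ⊢
    have e : y + o.2 - (o.2 + (c : ℤ)) = y - (0 + c) := by ring
    rw [e]
    intro h2
    exact h1 ⟨by omega, h2.2⟩

theorem av_trl (o : Vtx) (g c : ℕ) (u : Vtx) : AV o g c ((trl o.1 o.2).ψ u) ↔ AV (0, 0) g c u := by
  obtain ⟨x, y⟩ := u
  rw [trl_ψ]
  unfold AV inR
  simp only
  omega

theorem outEv_trl (o : Vtx) {g s c : ℕ} {v : Vtx} {F : Finset Edg}
    (h : OutEv (0, 0) g s c v F) :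
    OutEv o g s c ((trl o.1 o.2).ψ v) ((trl o.1 o.2).mp F) := by
  obtain ⟨w, hw, hb, hp⟩ := h
  refine ⟨(trl o.1 o.2).ψ w, ?_, ?_, ?_⟩
  · obtain ⟨x, y⟩ := w
    rw [trl_ψ]
    unfold inR at hw ⊢
    simp only at hw ⊢
    omega
  · obtain ⟨x, y⟩ := w
    rw [trl_ψ]
    simp only at hb ⊢
    omega
  · refine ((trl o.1 o.2).reach hp).mono ?_
    rintro _ ⟨e, ⟨h1, h2, h3, h4⟩, rfl⟩
    refine ⟨?_, ?_, ?_, ?_⟩
    · rw [mem_mp_φ]; exact h1
    · refine (re_trl o.1 o.2 _ _ _ _ ?_ ?_ ?_ ?_ e).2 h2 <;> ring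
    · rw [src_trl, av_trl]; exact h3
    · rw [tgt_trl, av_trl]; exact h4

theorem cen_trl (o : Vtx) (s : ℕ) (v : Vtx) : Cen o s ((trl o.1 o.2).ψ v) ↔ Cen (0, 0) s v := by
  obtain ⟨x, y⟩ := v
  rw [trl_ψ]
  unfold Cen
  simp only
  have e1 : x + o.1 - o.1 = x - 0 := by ring
  have e2 : y + o.2 - o.2 = y - 0 := by ring
  rw [e1, e2]

theorem enr_trl (a b : ℤ) (t : ℝ) (V : Finset Vtx) :
    Enr t (V.map (trl a b).ψ.toEmbedding) = Enr t V := by
  unfold Enr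
  rw [Finset.sum_map]
  apply Finset.sum_congr rfl
  intro v _
  rw [Finset.sum_map]
  apply Finset.sum_congr rfl
  intro w _
  simp only [Equiv.coe_toEmbedding, sd_trl]

/-! ### The piece -/

theorem richLoc_of {o : Vtx} {g s c M B : ℕ} {c0 E0 t : ℝ} {F G : Finset Edg}
    (h : F ∩ IE o g s c = G ∩ IE o g s c)
    (h' : ∀ e ∈ F, e ∈ RE (o.1 - g) (o.1 + 2 * s) (o.2 - s) (o.2 + 2 * s) → e ∈ G)
    (hF : RichLoc o g s c M B c0 E0 t F) : RichLoc o g s c M B c0 E0 t G := by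
  obtain ⟨V, h1, h2, h3⟩ := hF
  exact ⟨V, fun v hv => ⟨(h1 v hv).1, inEv_congr h (h1 v hv).2.1, outEv_mono h' (h1 v hv).2.2⟩,
    h2, h3⟩

theorem inter_cap {F S I : Finset Edg} (hI : I ⊆ S) : F ∩ I = (F ∩ S) ∩ I := by
  rw [Finset.inter_assoc]
  congr 1
  symm
  exact Finset.inter_eq_right.2 hI

theorem rlOk : RlOk where
  trl := by
    rintro o g s c M B c0 E0 t F ⟨V, h1, h2, h3⟩
    refine ⟨V.map (trl o.1 o.2).ψ.toEmbedding, ?_, ?_, ?_⟩
    · intro v hv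
      rw [Finset.mem_map] at hv
      obtain ⟨u, hu, rfl⟩ := hv
      obtain ⟨k1, k2, k3⟩ := h1 u hu
      rw [Equiv.coe_toEmbedding]
      exact ⟨(cen_trl o s u).2 k1, inEv_trl o k2, outEv_trl o k3⟩
    · rw [Finset.card_map]
      exact h2
    · rw [enr_trl]
      exact h3
  mono := by
    intro o g s c M B c0 E0 t F G hFG h
    exact richLoc_of h (fun e he _ => hFG he)
  loc := by
    intro o g s c M B c0 E0 t F S hI hR
    constructor
    · exact richLoc_of (inter_cap hI) (fun e he he2 => Finset.mem_inter.2 ⟨he, hR he2⟩)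
    · exact richLoc_of (inter_cap hI).symm (fun e he _ => (Finset.mem_inter.1 he).1)
  loc1 := by
    intro g s c M B v F S hI hR
    have hR' : RE (((0 : ℤ), (0 : ℤ)).1 - g) (((0 : ℤ), (0 : ℤ)).1 + 2 * s)
        (((0 : ℤ), (0 : ℤ)).2 - s) (((0 : ℤ), (0 : ℤ)).2 + 2 * s) ⊆ S := by
      simpa using hR
    constructor
    · rintro ⟨h1, h2⟩
      exact ⟨inEv_congr (inter_cap hI) h1,
        outEv_mono (fun e he he2 => Finset.mem_inter.2 ⟨he, hR' he2⟩) h2⟩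
    · rintro ⟨h1, h2⟩
      exact ⟨inEv_congr (inter_cap hI).symm h1,
        outEv_mono (fun e he _ => (Finset.mem_inter.1 he).1) h2⟩

end Pool.Agent.W2helper82.OA.P16
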