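import Pool.Agent.W2helper64.OA.Sum

/-!
# Piece P17: the local estimate
-/

set_option autoImplicit false

namespace Pool.Agent.W2helper82.OA.P17

open H974 H12S Finset H984P H984N

theorem okph : Ok ph := fun _ => ⟨by norm_num [ph], by norm_num [ph]⟩

/-! ### Moments -/

theorem markov {S : Finset Edg} {f : Finset Edg → ℝ} (hf : ∀ F, F ⊆ S → 0 ≤ f F) {t : ℝ}
    (ht : 0 < t) : Pr ph S (fun F => t ≤ f F) ≤ Ex ph S f / t := by
  rw [le_div_iff₀ ht, mul_comm]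
  unfold Pr
  rw [← Ex_mul_left]
  apply Ex_mono okph
  intro F hF
  by_cases h : t ≤ f F
  · rw [ind_of h]; linarith
  · rw [ind_not_of h, mul_zero]; exact hf F hF

theorem paley {S : Finset Edg} {f : Finset Edg → ℝ} (hf : ∀ F, F ⊆ S → 0 ≤ f F) {m V : ℝ}
    (hm : 0 < m) (hV : 0 < V) (h1 : m ≤ Ex ph S f) (h2 : Ex ph S (fun F => f F * f F) ≤ V) :
    m ^ 2 / (4 * V) ≤ Pr ph S (fun F => m / 2 ≤ f F) := by
  have key : Ex ph S f ≤ Ex ph S (fun F => m / 2 + (m / (4 * V) * (f F * f F) +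
      V / m * ind (m / 2 ≤ f F))) := by
    apply Ex_mono okph
    intro F hF
    have h0 := hf F hF
    by_cases h : m / 2 ≤ f F
    · rw [ind_of h, mul_one]
      have : f F ≤ m / (4 * V) * (f F * f F) + V / m := by
        have e : m / (4 * V) * (f F * f F) + V / m - f F = (m * f F - 2 * V) ^ 2 / (4 * V * m) := by
          field_simp
          ring
        have : 0 ≤ (m * f F - 2 * V) ^ 2 / (4 * V * m) := by positivity
        linarith
      linarith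
    · rw [ind_not_of h, mul_zero]
      push Not at h
      have : 0 ≤ m / (4 * V) * (f F * f F) := by positivity
      linarith
  have e1 : Ex ph S (fun F => m / 2 + (m / (4 * V) * (f F * f F) + V / m * ind (m / 2 ≤ f F))) =
      m / 2 + (m / (4 * V) * Ex ph S (fun F => f F * f F) +
        V / m * Pr ph S (fun F => m / 2 ≤ f F)) := by
    unfold Pr
    rw [Ex_add, Ex_const, Ex_add, Ex_mul_left, Ex_mul_left]
  rw [e1] at key
  have h3 : m / (4 * V) * Ex ph S (fun F => f F * f F) ≤ m / 4 := by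
    calc _ ≤ m / (4 * V) * V := mul_le_mul_of_nonneg_left h2 (by positivity)
      _ = m / 4 := by field_simp
  have h4 : m / 4 ≤ V / m * Pr ph S (fun F => m / 2 ≤ f F) := by linarith
  rw [div_le_iff₀ (by positivity)]
  have h5 : m / 4 * m ≤ V / m * Pr ph S (fun F => m / 2 ≤ f F) * m :=
    mul_le_mul_of_nonneg_right h4 hm.le
  have h6 : V / m * Pr ph S (fun F => m / 2 ≤ f F) * m = V * Pr ph S (fun F => m / 2 ≤ f F) := by
    field_simp
  rw [h6] at h5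
  nlinarith

/-- union bound -/
theorem pr_ex {ι : Type*} (S : Finset Edg) (I : Finset ι) (A : ι → Finset Edg → Prop) :
    Pr ph S (fun F => ∃ i ∈ I, A i F) ≤ ∑ i ∈ I, Pr ph S (A i) := by
  unfold Pr
  rw [← Ex_sum]
  apply Ex_mono okph
  intro F _
  by_cases h : ∃ i ∈ I, A i F
  · obtain ⟨i, hi, hA⟩ := h
    rw [ind_of ⟨i, hi, hA⟩]
    refine le_trans (le_of_eq (ind_of hA).symm) ?_
    exact Finset.single_le_sum (f := fun i => ind (A i F)) (fun j _ => ind_nonneg _) hi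
  · rw [ind_not_of h]
    exact Finset.sum_nonneg (fun j _ => ind_nonneg _)

/-! ### The centre -/

theorem ctr_iff {s : ℕ} {v : Vtx} : v ∈ CtrS s ↔ ((0 ≤ v.1 ∧ v.1 ≤ s) ∧ (0 ≤ v.2 ∧ v.2 ≤ s)) ∧
    8 * |2 * v.1 - s| ≤ s ∧ 8 * |2 * v.2 - s| ≤ s := by
  unfold CtrS BX
  rw [Finset.mem_filter, Finset.mem_product, Finset.mem_Icc, Finset.mem_Icc]

theorem ctr_card_le {s : ℕ} (hs : 1 ≤ s) : ((CtrS s).card : ℝ) ≤ 4 * (s : ℝ) ^ 2 := by
  have hn' : (1 : ℝ) ≤ s := by exact_mod_cast hs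
  have c1 : (CtrS s).card ≤ (s + 1) * (s + 1) := by
    have hsub : CtrS s ⊆ Finset.Icc (0 : ℤ) s ×ˢ Finset.Icc (0 : ℤ) s := Finset.filter_subset _ _
    have := Finset.card_le_card hsub
    rw [Finset.card_product, Int.card_Icc] at this
    simpa using this
  have c2 : ((CtrS s).card : ℝ) ≤ ((s : ℝ) + 1) * ((s : ℝ) + 1) := by exact_mod_cast c1
  nlinarith

theorem le_ctr_card {s : ℕ} (hs : 16 ≤ s) : (s : ℝ) ^ 2 / 1024 ≤ ((CtrS s).card : ℝ) := by
  have hsub : Finset.Icc (((s : ℤ) + 1) / 2) (((s : ℤ) + 1) / 2 + (s : ℤ) / 32) ×ˢ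
      Finset.Icc (((s : ℤ) + 1) / 2) (((s : ℤ) + 1) / 2 + (s : ℤ) / 32) ⊆ CtrS s := by
    rintro ⟨x, y⟩ h
    rw [Finset.mem_product, Finset.mem_Icc, Finset.mem_Icc] at h
    rw [ctr_iff]
    simp only at h ⊢
    obtain ⟨⟨h1, h2⟩, h3, h4⟩ := h
    have e1 : |2 * x - (s : ℤ)| = 2 * x - s := abs_of_nonneg (by omega)
    have e2 : |2 * y - (s : ℤ)| = 2 * y - s := abs_of_nonneg (by omega)
    rw [e1, e2]
    omega
  have h1 := Finset.card_le_card hsub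
  rw [Finset.card_product, Int.card_Icc] at h1
  have h2 : (((s : ℤ) + 1) / 2 + (s : ℤ) / 32 + 1 - ((s : ℤ) + 1) / 2).toNat = s / 32 + 1 := by
    omega
  rw [h2] at h1
  have h3 : (s : ℝ) / 32 ≤ ((s / 32 + 1 : ℕ) : ℝ) := by
    have h4 : s ≤ 32 * (s / 32 + 1) := by omega
    have h5 : (s : ℝ) ≤ 32 * ((s / 32 + 1 : ℕ) : ℝ) := by exact_mod_cast h4
    linarith
  have h6 : (((s / 32 + 1) * (s / 32 + 1) : ℕ) : ℝ) ≤ ((CtrS s).card : ℝ) := by exact_mod_cast h1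
  rw [Nat.cast_mul] at h6
  have h7 : (0 : ℝ) ≤ (s : ℝ) / 32 := by positivity
  have h8 : (s : ℝ) / 32 * ((s : ℝ) / 32) ≤ ((s / 32 + 1 : ℕ) : ℝ) * ((s / 32 + 1 : ℕ) : ℝ) :=
    mul_le_mul h3 h3 h7 (h7.trans h3)
  calc (s : ℝ) ^ 2 / 1024 = (s : ℝ) / 32 * ((s : ℝ) / 32) := by ring
    _ ≤ _ := h8.trans h6

/-- two-dimensional sum -/
theorem two_sum {a : ℝ} (ha : 0 ≤ a) (ha1 : a < 2) (n : ℕ) (hn : 1 ≤ n) (v : Vtx)
    (hv : v ∈ CtrS n) :
    ∑ w ∈ CtrS n, ((max (sd v w) 1 : ℤ) : ℝ) ^ (-a) ≤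
      (1 + 4 / (1 - a / 2)) ^ 2 * (n : ℝ) ^ (2 - a) := by
  have hh1 : (1:ℝ) ≤ n := by exact_mod_cast hn
  have hh0 : (0:ℝ) < n := by linarith
  have hv' := (ctr_iff.1 hv).1
  have b0 : 0 ≤ a / 2 := by linarith
  have b1 : a / 2 < 1 := by linarith
  have s1 := t5_one b0 b1 (n : ℤ) (by omega) v.1 (Finset.Icc (0 : ℤ) n) (by
    intro l hl
    rw [Finset.mem_Icc] at hl
    rw [abs_le]
    omega)
  have s2 := t5_one b0 b1 (n : ℤ) (by omega) v.2 (Finset.Icc (0 : ℤ) n) (by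
    intro l hl
    rw [Finset.mem_Icc] at hl
    rw [abs_le]
    omega)
  rw [Int.cast_natCast] at s1 s2
  have key : ∀ w : Vtx, ((max (sd v w) 1 : ℤ) : ℝ) ^ (-a) ≤
      ((max |v.1 - w.1| 1 : ℤ) : ℝ) ^ (-(a / 2)) * ((max |v.2 - w.2| 1 : ℤ) : ℝ) ^ (-(a / 2)) := by
    intro w
    have m1 : ((max |v.1 - w.1| 1 : ℤ) : ℝ) ≤ ((max (sd v w) 1 : ℤ) : ℝ) := by
      have : max |v.1 - w.1| 1 ≤ max (sd v w) 1 := max_le_max (le_max_left _ _) le_rfl
      exact_mod_cast this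
    have m2 : ((max |v.2 - w.2| 1 : ℤ) : ℝ) ≤ ((max (sd v w) 1 : ℤ) : ℝ) := by
      have : max |v.2 - w.2| 1 ≤ max (sd v w) 1 := max_le_max (le_max_right _ _) le_rfl
      exact_mod_cast this
    have e : ((max (sd v w) 1 : ℤ) : ℝ) ^ (-a) =
        ((max (sd v w) 1 : ℤ) : ℝ) ^ (-(a / 2)) * ((max (sd v w) 1 : ℤ) : ℝ) ^ (-(a / 2)) := by
      rw [← Real.rpow_add (t5_max_pos _)]
      congr 1
      ring
    rw [e]
    exact mul_le_mul
      (Real.rpow_le_rpow_of_nonpos (t5_max_pos _) m1 (by linarith))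
      (Real.rpow_le_rpow_of_nonpos (t5_max_pos _) m2 (by linarith))
      (Real.rpow_nonneg (t5_max_nonneg _) _) (Real.rpow_nonneg (t5_max_nonneg _) _)
  have h0 : 0 ≤ ∑ l ∈ Finset.Icc (0 : ℤ) n, ((max |v.2 - l| 1 : ℤ) : ℝ) ^ (-(a / 2)) :=
    Finset.sum_nonneg (fun _ _ => Real.rpow_nonneg (t5_max_nonneg _) _)
  have hsub : CtrS n ⊆ Finset.Icc (0 : ℤ) n ×ˢ Finset.Icc (0 : ℤ) n := Finset.filter_subset _ _
  calc ∑ w ∈ CtrS n, ((max (sd v w) 1 : ℤ) : ℝ) ^ (-a)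
      ≤ ∑ w ∈ Finset.Icc (0 : ℤ) n ×ˢ Finset.Icc (0 : ℤ) n, ((max (sd v w) 1 : ℤ) : ℝ) ^ (-a) :=
        Finset.sum_le_sum_of_subset_of_nonneg hsub
          (fun _ _ _ => Real.rpow_nonneg (t5_max_nonneg _) _)
    _ ≤ ∑ w ∈ Finset.Icc (0 : ℤ) n ×ˢ Finset.Icc (0 : ℤ) n,
        ((max |v.1 - w.1| 1 : ℤ) : ℝ) ^ (-(a / 2)) * ((max |v.2 - w.2| 1 : ℤ) : ℝ) ^ (-(a / 2)) :=
        Finset.sum_le_sum (fun w _ => key w)
    _ = (∑ l ∈ Finset.Icc (0 : ℤ) n, ((max |v.1 - l| 1 : ℤ) : ℝ) ^ (-(a / 2))) *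
        ∑ l ∈ Finset.Icc (0 : ℤ) n, ((max |v.2 - l| 1 : ℤ) : ℝ) ^ (-(a / 2)) := by
        rw [Finset.sum_product, Finset.sum_mul_sum]
    _ ≤ ((1 + 4 / (1 - a / 2)) * (n : ℝ) ^ (1 - a / 2)) *
        ((1 + 4 / (1 - a / 2)) * (n : ℝ) ^ (1 - a / 2)) :=
        mul_le_mul s1 s2 h0 (h0.trans s2)
    _ = (1 + 4 / (1 - a / 2)) ^ 2 * ((n : ℝ) ^ (1 - a / 2) * (n : ℝ) ^ (1 - a / 2)) := by ring
    _ = _ := by
        rw [← Real.rpow_add hh0]
        congr 2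
        ring

/-! ### The events -/

/-- all the conditions at `v` -/
def AG (g s c M B : ℕ) (v : Vtx) (F : Finset Edg) : Prop :=
  EL s v (Clu s v F) ∧ InEv (0, 0) g s c M B v F ∧ OutEv (0, 0) g s c v F

open Classical in
noncomputable def VG (g s c M B : ℕ) (F : Finset Edg) : Finset Vtx :=
  (CtrS s).filter (fun v => AG g s c M B v F)

/-- the large box -/
noncomputable def TT (g s : ℕ) : Finset Edg := RE (-5 * g) (2 * s) (-s) (2 * s)

theorem VG_card (g s c M B : ℕ) (F : Finset Edg) :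
    ((VG g s c M B F).card : ℝ) = ∑ v ∈ CtrS s, ind (AG g s c M B v F) := by
  classical
  unfold VG
  rw [Finset.card_filter]
  push_cast
  apply Finset.sum_congr rfl
  intro v _
  by_cases hv : AG g s c M B v F
  · rw [if_pos hv, ind_of hv]
  · rw [if_neg hv, ind_not_of hv]

theorem VG_en (t : ℝ) (g s c M B : ℕ) (F : Finset Edg) :
    Enr t (VG g s c M B F) = ∑ v ∈ CtrS s, ∑ w ∈ CtrS s,
      ((max (sd v w) 1 : ℤ) : ℝ) ^ (-t) * ind (AG g s c M B v F ∧ AG g s c M B w F) := by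
  classical
  unfold Enr VG
  rw [Finset.sum_filter]
  apply Finset.sum_congr rfl
  intro v _
  by_cases hv : AG g s c M B v F
  · rw [if_pos hv, Finset.sum_filter]
    apply Finset.sum_congr rfl
    intro w _
    by_cases hw : AG g s c M B w F
    · rw [if_pos hw, ind_of ⟨hv, hw⟩, mul_one]
    · rw [if_neg hw, ind_not_of (fun h => hw h.2), mul_zero]
  · rw [if_neg hv]
    symm
    apply Finset.sum_eq_zero
    intro w _
    rw [ind_not_of (fun h => hv h.1), mul_zero]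

theorem VG_sq (g s c M B : ℕ) (F : Finset Edg) :
    ((VG g s c M B F).card : ℝ) * ((VG g s c M B F).card : ℝ) = Enr 0 (VG g s c M B F) := by
  unfold Enr
  simp only [neg_zero, Real.rpow_zero, Finset.sum_const, nsmul_eq_mul, mul_one]

theorem Enr_nonneg (t : ℝ) (V : Finset Vtx) : 0 ≤ Enr t V :=
  Finset.sum_nonneg (fun _ _ => Finset.sum_nonneg
    (fun _ _ => Real.rpow_nonneg (t5_max_nonneg _) _))

theorem RE_sub {a b c d a' b' c' d' : ℤ} (h1 : a' ≤ a) (h2 : b ≤ b') (h3 : c' ≤ c) (h4 : d ≤ d') :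
    RE a b c d ⊆ RE a' b' c' d' := by
  rintro ⟨x, y, _ | _⟩ h
  · rw [mem_RE_false] at h ⊢; omega
  · rw [mem_RE_true] at h ⊢; omega

theorem Clu_local {s : ℕ} {v : Vtx} {F S : Finset Edg} (h : RE 0 s 0 s ⊆ S) :
    Clu s v (F ∩ S) = Clu s v F := by
  unfold Clu
  have : (↑(F ∩ S) ∩ ↑(RE 0 (s : ℤ) 0 s) : Set Edg) = ↑F ∩ ↑(RE 0 (s : ℤ) 0 s) := by
    ext e
    simp only [Set.mem_inter_iff, Finset.mem_coe, Finset.mem_inter]
    constructor
    · rintro ⟨⟨h1, -⟩, h2⟩; exact ⟨h1, h2⟩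
    · rintro ⟨h1, h2⟩; exact ⟨⟨h1, h h2⟩, h2⟩
  rw [this]

theorem IE_sub (o : Vtx) {g s c : ℕ} (_h1 : 64 * g ≤ s) (h2 : 10 * g ≤ c) (h3 : c + 10 * g ≤ s) :
    IE o g s c ⊆ RE (o.1 - 5 * g) (o.1 + 2 * s) (o.2 - s) (o.2 + 2 * s) := by
  unfold IE B0
  apply Finset.union_subset
  · exact RE_sub (by omega) (by omega) (by omega) (by omega)
  · exact RE_sub (by omega) (by omega) (by omega) (by omega)

theorem AG_local (hRL : RlOk) {g s c M B : ℕ} (h1 : 64 * g ≤ s) (h2 : 10 * g ≤ c)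
    (h3 : c + 10 * g ≤ s) (v : Vtx) (F : Finset Edg) :
    AG g s c M B v F ↔ AG g s c M B v (F ∩ TT g s) := by
  unfold AG
  rw [Clu_local (S := TT g s) (RE_sub (by omega) (by omega) (by omega) (by omega))]
  rw [hRL.loc1 g s c M B v F (TT g s) ?_ ?_]
  · have := IE_sub (0, 0) h1 h2 h3
    refine this.trans (RE_sub ?_ ?_ ?_ ?_) <;> simp only <;> omega
  · exact RE_sub (by omega) (by omega) (by omega) (by omega)

/-! ### First moment -/

/-- resampling -/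
theorem resample (hDEC1 : S_DEC1) (hC : CondOk) (hD : DecOk) {g s c M B : ℕ} (hg : 0 < g)
    (h1 : 64 * g ≤ s) (h2 : 10 * g ≤ c) (h3 : c + 10 * g ≤ s) {v : Vtx} (hv : v ∈ CtrS s) :
    Pr ph (blk v (128 * s)) (BaseL g s c M B v) * Pr ph (blk v (128 * s)) (DecAll g s c) ≤
      Pr ph (blk v (128 * s)) (AG g s c M B v) := by
  classical
  have hst : ∀ F F' : Finset Edg, F ∩ RK s v F = F' ∩ RK s v F → RK s v F' = RK s v F :=
    fun F F' h => (hC.st s v F F' h).1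
  have key := hDEC1 (blk v (128 * s)) (RK s v)
    (fun F X => ind (AG g s c M B v ((F ∩ RK s v F) ∪ X)))
    (fun F _ => by unfold RK; exact Finset.filter_subset _ _)
    (fun F F' _ _ h => hst F F' h)
    (fun F F' X _ _ h => by
      rw [hst F F' h, h])
  have e1 : Ex ph (blk v (128 * s)) (fun F => ind (AG g s c M B v ((F ∩ RK s v F) ∪ (F \ RK s v F)))) =
      Pr ph (blk v (128 * s)) (AG g s c M B v) := by
    unfold Pr
    apply Ex_congr
    intro F _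
    congr 2
    ext e
    simp only [Finset.mem_union, Finset.mem_inter, Finset.mem_sdiff]
    tauto
  rw [e1] at key
  rw [key]
  unfold Pr
  rw [← Ex_mul_right]
  apply Ex_mono okph
  intro F _
  rw [← Ex_mul_left]
  apply Ex_mono okph
  intro G _
  by_cases hB : BaseL g s c M B v F
  · by_cases hG : DecAll g s c G
    · rw [ind_of hB, ind_of hG, one_mul, ind_of]
      exact hC.main g s c M B v F G hg h1 h2 h3 hv hB (hD.anti g s c _ _ Finset.sdiff_subset hG)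
    · rw [ind_not_of hG, mul_zero]; exact ind_nonneg _
  · rw [ind_not_of hB, zero_mul]; exact ind_nonneg _

/-- some window is good -/
theorem window (hSYM : S_SYM4) (hWIN : S_WIN) {M B K g : ℕ} (hM : 1 ≤ M) (hB : 1 ≤ B)
    (hK : 64 * M * 64 ^ B ≤ K) (hg : 0 < g) (hK64 : 64 ≤ K) {Y : ℝ} (hY : 0 ≤ Y)
    (h : Y ≤ ∑ v ∈ CtrS (K * g), Pr ph (blk v (128 * (K * g))) (BaseEv M B (K * g) v)) :
    ∃ i : ℕ, 10 ≤ i ∧ i + 10 ≤ K ∧ Y / (4 * K) ≤
      ∑ v ∈ CtrS (K * g), Pr ph (blk v (128 * (K * g))) (BaseL g (K * g) (i * g) K B v) := by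
  have h64 : 64 * g ≤ K * g := Nat.mul_le_mul_right g hK64
  have h1 := hSYM g (K * g) M B hg h64
  have h2 : ∑ v ∈ CtrS (K * g), Pr ph (blk v (128 * (K * g))) (ExL g (K * g) M B v) ≤
      ∑ i ∈ Finset.Icc 10 (K - 10), ∑ v ∈ CtrS (K * g),
        Pr ph (blk v (128 * (K * g))) (BaseL g (K * g) (i * g) K B v) := by
    rw [Finset.sum_comm]
    apply Finset.sum_le_sum
    intro v hv
    refine le_trans ?_ (pr_ex (blk v (128 * (K * g))) (Finset.Icc 10 (K - 10))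
      (fun i => BaseL g (K * g) (i * g) K B v))
    apply Pr_mono okph
    intro F _ hF
    obtain ⟨i, hi1, hi2, hi3⟩ := hWIN M B K g hM hB hK hg v hv F hF
    exact ⟨i, Finset.mem_Icc.2 ⟨hi1, by omega⟩, hi3⟩
  have hKp : (0 : ℝ) < K := by
    have : 0 < K := by omega
    exact_mod_cast this
  have h3 : ∑ i ∈ Finset.Icc 10 (K - 10), (Y / (4 * K)) ≤
      ∑ i ∈ Finset.Icc 10 (K - 10), ∑ v ∈ CtrS (K * g),
        Pr ph (blk v (128 * (K * g))) (BaseL g (K * g) (i * g) K B v) := by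
    rw [Finset.sum_const, nsmul_eq_mul, Nat.card_Icc]
    have h4 : ((K - 10 + 1 - 10 : ℕ) : ℝ) ≤ K := by
      have : K - 10 + 1 - 10 ≤ K := by omega
      exact_mod_cast this
    have h5 : ((K - 10 + 1 - 10 : ℕ) : ℝ) * (Y / (4 * K)) ≤ K * (Y / (4 * K)) :=
      mul_le_mul_of_nonneg_right h4 (by positivity)
    have h6 : (K : ℝ) * (Y / (4 * K)) = Y / 4 := by field_simp
    rw [h6] at h5
    linarith
  obtain ⟨i, hi, hi2⟩ := Finset.exists_le_of_sum_le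
    (Finset.nonempty_Icc.2 (by omega)) h3
  rw [Finset.mem_Icc] at hi
  exact ⟨i, hi.1, by omega, hi2⟩

/-! ### Second moment -/

/-- expectation of the energy -/
theorem en_le (hTWO : S_TWOL) {t : ℝ} (ht : 0 ≤ t) (ht1 : t < 4 / 3) :
    ∃ (C : ℝ) (n0 : ℕ), 0 < C ∧ ∀ g s c M B : ℕ, n0 ≤ s → 1 ≤ s →
      Ex ph (TT g s) (fun F => Enr t (VG g s c M B F)) ≤ C * (s : ℝ) ^ (8 / 3 - t) := by
  obtain ⟨C, n0, hC, hT⟩ := hTWO
  have hb : 0 < 1 - (t + 2 / 3) / 2 := by linarith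
  refine ⟨4 * C * (1 + 4 / (1 - (t + 2 / 3) / 2)) ^ 2, n0, by positivity, ?_⟩
  intro g s c M B hn hs
  have ha0 : (0:ℝ) < s := by
    have : 0 < s := by omega
    exact_mod_cast this
  have e1 : Ex ph (TT g s) (fun F => Enr t (VG g s c M B F)) = ∑ v ∈ CtrS s, ∑ w ∈ CtrS s,
      ((max (sd v w) 1 : ℤ) : ℝ) ^ (-t) *
        Pr ph (TT g s) (fun F => AG g s c M B v F ∧ AG g s c M B w F) := by
    have e0 : (fun F => Enr t (VG g s c M B F)) = (fun F => ∑ v ∈ CtrS s, ∑ w ∈ CtrS s,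
      ((max (sd v w) 1 : ℤ) : ℝ) ^ (-t) * ind (AG g s c M B v F ∧ AG g s c M B w F)) := by
      funext F
      exact VG_en t g s c M B F
    rw [e0, Ex_sum]
    apply Finset.sum_congr rfl
    intro v _
    rw [Ex_sum]
    apply Finset.sum_congr rfl
    intro w _
    rw [Ex_mul_left]
    rfl
  rw [e1]
  have h2 : ∀ v ∈ CtrS s, ∑ w ∈ CtrS s, ((max (sd v w) 1 : ℤ) : ℝ) ^ (-t) *
        Pr ph (TT g s) (fun F => AG g s c M B v F ∧ AG g s c M B w F) ≤
      C * (s : ℝ) ^ (-(2 / 3) : ℝ) *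
        ((1 + 4 / (1 - (t + 2 / 3) / 2)) ^ 2 * (s : ℝ) ^ (2 - (t + 2 / 3))) := by
    intro v hv
    have i1 := two_sum (a := t + 2 / 3) (by linarith) (by linarith) s (by omega) v hv
    refine le_trans ?_ (mul_le_mul_of_nonneg_left i1
      (mul_nonneg hC.le (Real.rpow_nonneg ha0.le _)))
    rw [Finset.mul_sum]
    apply Finset.sum_le_sum
    intro w hw
    have i2 : Pr ph (TT g s) (fun F => AG g s c M B v F ∧ AG g s c M B w F) ≤
        C * ((max (sd v w) 1 : ℤ) : ℝ) ^ (-(2 / 3) : ℝ) * (s : ℝ) ^ (-(2 / 3) : ℝ) := by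
      refine le_trans ?_ (hT s hn v hv w hw)
      refine le_trans (Pr_mono okph (B := fun F => EL s v (Clu s v F) ∧ EL s w (Clu s w F)) ?_) ?_
      · rintro F _ ⟨k, k'⟩
        exact ⟨k.1, k'.1⟩
      · refine le_of_eq (Pr_local ?_ ?_)
        · exact RE_sub (by omega) (by omega) (by omega) (by omega)
        · intro F _
          rw [Clu_local (v := v) (subset_refl _), Clu_local (v := w) (subset_refl _)]
    have e2 : ((max (sd v w) 1 : ℤ) : ℝ) ^ (-(t + 2 / 3)) =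
        ((max (sd v w) 1 : ℤ) : ℝ) ^ (-t) * ((max (sd v w) 1 : ℤ) : ℝ) ^ (-(2 / 3) : ℝ) := by
      rw [← Real.rpow_add (t5_max_pos _)]
      congr 1
      ring
    rw [e2]
    calc _ ≤ ((max (sd v w) 1 : ℤ) : ℝ) ^ (-t) *
          (C * ((max (sd v w) 1 : ℤ) : ℝ) ^ (-(2 / 3) : ℝ) * (s : ℝ) ^ (-(2 / 3) : ℝ)) :=
          mul_le_mul_of_nonneg_left i2 (Real.rpow_nonneg (t5_max_nonneg _) _)
      _ = _ := by ring
  refine (Finset.sum_le_sum h2).trans ?_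
  rw [Finset.sum_const, nsmul_eq_mul]
  have e3 : (s : ℝ) ^ 2 * ((s : ℝ) ^ (-(2 / 3) : ℝ) * (s : ℝ) ^ (2 - (t + 2 / 3))) =
      (s : ℝ) ^ (8 / 3 - t) := by
    rw [← Real.rpow_add ha0, ← Real.rpow_natCast, ← Real.rpow_add ha0]
    congr 1
    push_cast
    ring
  have h4 := ctr_card_le (s := s) (by omega)
  have h5 : 0 ≤ C * (s : ℝ) ^ (-(2 / 3) : ℝ) *
        ((1 + 4 / (1 - (t + 2 / 3) / 2)) ^ 2 * (s : ℝ) ^ (2 - (t + 2 / 3))) := by
    have := Real.rpow_nonneg ha0.le (-(2 / 3) : ℝ)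
    have := Real.rpow_nonneg ha0.le (2 - (t + 2 / 3))
    positivity
  calc ((CtrS s).card : ℝ) * (C * (s : ℝ) ^ (-(2 / 3) : ℝ) *
        ((1 + 4 / (1 - (t + 2 / 3) / 2)) ^ 2 * (s : ℝ) ^ (2 - (t + 2 / 3))))
      ≤ (4 * (s : ℝ) ^ 2) * (C * (s : ℝ) ^ (-(2 / 3) : ℝ) *
        ((1 + 4 / (1 - (t + 2 / 3) / 2)) ^ 2 * (s : ℝ) ^ (2 - (t + 2 / 3)))) :=
        mul_le_mul_of_nonneg_right h4 h5
    _ = 4 * C * (1 + 4 / (1 - (t + 2 / 3) / 2)) ^ 2 *
        ((s : ℝ) ^ 2 * ((s : ℝ) ^ (-(2 / 3) : ℝ) * (s : ℝ) ^ (2 - (t + 2 / 3)))) := by ring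
    _ = _ := by rw [e3]

/-! ### The estimate -/

theorem s_loc (hDEC1 : S_DEC1) (hBASE : S_BASE) (hTWO : S_TWOL) (hSYM : S_SYM4) (hWIN : S_WIN)
    (hC : CondOk) (hD : DecOk) (hRL : RlOk) : S_LOC := by
  intro t ht ht1
  obtain ⟨M, B, n0, c1, hM, hB, hc1, hbase⟩ := hBASE
  obtain ⟨C0, n1, hC0, hE0⟩ := en_le hTWO (t := 0) le_rfl (by norm_num)
  obtain ⟨Ct, n2, hCt, hEt⟩ := en_le hTWO (t := t) ht.le ht1
  set K : ℕ := 64 * M * 64 ^ B with hK
  have hK64 : 64 ≤ K := by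
    have h1 : 1 ≤ M * 64 ^ B := Nat.one_le_iff_ne_zero.2 (by positivity)
    rw [hK, mul_assoc]
    omega
  have hKp : (0 : ℝ) < K := by
    have : 0 < K := by omega
    exact_mod_cast this
  obtain ⟨p1, hp1, hdec⟩ := hD.pr K hK64
  set A : ℝ := c1 / 1024 / (4 * K) * p1 with hA
  have hA0 : 0 < A := by positivity
  set p : ℝ := A ^ 2 / (4 * C0) / 2 with hp
  have hp0 : 0 < p := by positivity
  refine ⟨K, K, B, max (max n0 n1) (max n2 16), A / 2, Ct / p, p, hK64, hB, by positivity,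
    by positivity, hp0, ?_⟩
  intro g hg
  have hg0 : n0 ≤ g := ((le_max_left _ _).trans (le_max_left _ _)).trans hg
  have hg1 : n1 ≤ g := ((le_max_right _ _).trans (le_max_left _ _)).trans hg
  have hg2 : n2 ≤ g := ((le_max_left _ _).trans (le_max_right _ _)).trans hg
  have hg3 : 16 ≤ g := ((le_max_right _ _).trans (le_max_right _ _)).trans hg
  have hgs : g ≤ K * g := Nat.le_mul_of_pos_left g (by omega)
  have h64 : 64 * g ≤ K * g := Nat.mul_le_mul_right g hK64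
  set s : ℕ := K * g with hs
  have hs16 : 16 ≤ s := hg3.trans hgs
  have hm0 : (0:ℝ) < s := by
    have : 0 < s := by omega
    exact_mod_cast this
  -- first moment
  have f1 : c1 / 1024 * (s : ℝ) ^ (4 / 3 : ℝ) ≤
      ∑ v ∈ CtrS s, Pr ph (blk v (128 * s)) (BaseEv M B s v) := by
    have h1 : ∑ v ∈ CtrS s, c1 * (s : ℝ) ^ (-(2 / 3 : ℝ)) ≤
        ∑ v ∈ CtrS s, Pr ph (blk v (128 * s)) (BaseEv M B s v) :=
      Finset.sum_le_sum (fun v hv => hbase s (hg0.trans hgs) v hv)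
    rw [Finset.sum_const, nsmul_eq_mul] at h1
    refine le_trans ?_ h1
    have h2 := le_ctr_card hs16
    have h3 : (s : ℝ) ^ 2 * (s : ℝ) ^ (-(2 / 3 : ℝ)) = (s : ℝ) ^ (4 / 3 : ℝ) := by
      rw [← Real.rpow_natCast, ← Real.rpow_add hm0]
      congr 1
      push_cast
      ring
    have h4 : 0 ≤ c1 * (s : ℝ) ^ (-(2 / 3 : ℝ)) :=
      mul_nonneg hc1.le (Real.rpow_nonneg hm0.le _)
    calc c1 / 1024 * (s : ℝ) ^ (4 / 3 : ℝ) = (s : ℝ) ^ 2 / 1024 * (c1 * (s : ℝ) ^ (-(2 / 3 : ℝ))) := by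
          rw [← h3]; ring
      _ ≤ _ := mul_le_mul_of_nonneg_right h2 h4
  obtain ⟨i, hi1, hi2, hi3⟩ := window hSYM hWIN (K := K) (g := g) (by omega) hB le_rfl (by omega)
    hK64 (Y := c1 / 1024 * (s : ℝ) ^ (4 / 3 : ℝ)) (by positivity) f1
  have hc1' : 10 * g ≤ i * g := Nat.mul_le_mul_right g hi1
  have hc2' : i * g + 10 * g ≤ s := by
    rw [← Nat.add_mul]
    exact Nat.mul_le_mul_right g hi2
  refine ⟨i * g, hc1', hc2', ?_⟩
  set c : ℕ := i * g with hc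
  have f2 : A * (s : ℝ) ^ (4 / 3 : ℝ) ≤ ∑ v ∈ CtrS s, Pr ph (TT g s) (AG g s c K B v) := by
    have h1 : (∑ v ∈ CtrS s, Pr ph (blk v (128 * s)) (BaseL g s c K B v)) * p1 ≤
        ∑ v ∈ CtrS s, Pr ph (TT g s) (AG g s c K B v) := by
      rw [Finset.sum_mul]
      apply Finset.sum_le_sum
      intro v hv
      have h2 := resample hDEC1 hC hD (g := g) (s := s) (c := c) (M := K) (B := B) (by omega)
        h64 hc1' hc2' hv
      have h3 := hdec g c (blk v (128 * s)) (by omega) hc1' hc2'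
      have h4 : Pr ph (blk v (128 * s)) (AG g s c K B v) = Pr ph (TT g s) (AG g s c K B v) := by
        apply Pr_local
        · have hv' := (ctr_iff.1 hv).1
          unfold TT blk
          apply RE_sub <;> push_cast <;> omega
        · intro F _
          exact AG_local hRL h64 hc1' hc2' v F
      rw [h4] at h2
      exact (mul_le_mul_of_nonneg_left h3 (Pr_nonneg okph _ _)).trans h2
    refine le_trans ?_ h1
    have h5 := mul_le_mul_of_nonneg_right hi3 hp1.le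
    refine le_trans (le_of_eq ?_) h5
    rw [hA]
    ring
  -- moments
  have hU : 0 < (s : ℝ) ^ (4 / 3 : ℝ) := Real.rpow_pos_of_pos hm0 _
  have hU2 : (s : ℝ) ^ (4 / 3 : ℝ) * (s : ℝ) ^ (4 / 3 : ℝ) = (s : ℝ) ^ (8 / 3 - (0:ℝ)) := by
    rw [← Real.rpow_add hm0]; norm_num
  set X : Finset Edg → ℝ := fun F => ((VG g s c K B F).card : ℝ) with hX
  have hX0 : ∀ F, 0 ≤ X F := fun F => Nat.cast_nonneg _
  have l1 : A * (s : ℝ) ^ (4 / 3 : ℝ) ≤ Ex ph (TT g s) X := by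
    have e1 : Ex ph (TT g s) X = ∑ v ∈ CtrS s, Pr ph (TT g s) (AG g s c K B v) := by
      have e0 : X = (fun F => ∑ v ∈ CtrS s, ind (AG g s c K B v F)) := by
        funext F
        exact VG_card g s c K B F
      rw [e0, Ex_sum]
      rfl
    rw [e1]
    exact f2
  have l2 : Ex ph (TT g s) (fun F => X F * X F) ≤ C0 * (s : ℝ) ^ (8 / 3 - (0:ℝ)) := by
    refine le_trans (le_of_eq ?_) (hE0 g s c K B (hg1.trans hgs) (by omega))
    congr 1
    funext F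
    exact VG_sq g s c K B F
  have k := paley (S := TT g s) (f := X) (fun F _ => hX0 F)
    (m := A * (s : ℝ) ^ (4 / 3 : ℝ)) (V := C0 * (s : ℝ) ^ (8 / 3 - (0:ℝ)))
    (by positivity) (by positivity) l1 l2
  have e3 : (A * (s : ℝ) ^ (4 / 3 : ℝ)) ^ 2 /
      (4 * (C0 * (s : ℝ) ^ (8 / 3 - (0:ℝ)))) = 2 * p := by
    rw [← hU2, hp]
    field_simp
  rw [e3] at k
  have hU3 : 0 < (s : ℝ) ^ (8 / 3 - t) := Real.rpow_pos_of_pos hm0 _
  have i2 := markov (S := TT g s) (f := fun F => Enr t (VG g s c K B F))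
    (fun F _ => Enr_nonneg t _) (t := Ct / p * (s : ℝ) ^ (8 / 3 - t)) (by positivity)
  have i3 : Ex ph (TT g s) (fun F => Enr t (VG g s c K B F)) / (Ct / p * (s : ℝ) ^ (8 / 3 - t)) ≤
      p := by
    rw [div_le_iff₀ (by positivity)]
    refine (hEt g s c K B (hg2.trans hgs) (by omega)).trans (le_of_eq ?_)
    field_simp
  have i4 : Pr ph (TT g s) (fun F => A * (s : ℝ) ^ (4 / 3 : ℝ) / 2 ≤ X F) ≤
      Pr ph (TT g s) (RichLoc (0, 0) g s c K B (A / 2) (Ct / p) t) +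
      Pr ph (TT g s) (fun F => Ct / p * (s : ℝ) ^ (8 / 3 - t) ≤ Enr t (VG g s c K B F)) := by
    refine le_trans ?_ (Pr_or_le okph (TT g s) (RichLoc (0, 0) g s c K B (A / 2) (Ct / p) t) _)
    apply Pr_mono okph
    intro F _ hF
    by_cases h5 : Enr t (VG g s c K B F) ≤ Ct / p * (s : ℝ) ^ (8 / 3 - t)
    · left
      refine ⟨VG g s c K B F, ?_, ?_, h5⟩
      · intro v hv
        classical
        unfold VG at hv
        rw [Finset.mem_filter] at hv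
        refine ⟨?_, hv.2.2.1, hv.2.2.2⟩
        have := (ctr_iff.1 hv.1).2
        unfold Cen
        simpa using this
      · refine le_trans (le_of_eq ?_) hF
        ring
    · exact Or.inr (le_of_not_ge h5)
  have i5 : p ≤ Pr ph (TT g s) (RichLoc (0, 0) g s c K B (A / 2) (Ct / p) t) := by linarith
  -- translation
  intro o S hS
  have hS' : RE (o.1 - 5 * g) (o.1 + 2 * s) (o.2 - s) (o.2 + 2 * s) ⊆ S := by
    rw [hs]
    push_cast
    exact hS
  have j1 : Pr ph S (RichLoc o g s c K B (A / 2) (Ct / p) t) =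
      Pr ph (RE (o.1 - 5 * g) (o.1 + 2 * s) (o.2 - s) (o.2 + 2 * s))
        (RichLoc o g s c K B (A / 2) (Ct / p) t) := by
    apply Pr_local hS'
    intro F _
    apply hRL.loc
    · exact IE_sub o h64 hc1' hc2'
    · exact RE_sub (by omega) (by omega) (by omega) (by omega)
  have j2 : RE (o.1 - 5 * g) (o.1 + 2 * s) (o.2 - s) (o.2 + 2 * s) = (trl o.1 o.2).mp (TT g s) := by
    unfold TT
    rw [trl_RE]
    congr 1 <;> ring
  rw [j1, j2]
  refine i5.trans ?_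
  have j3 := LSym.pr (trl o.1 o.2) (1 / 2) (TT g s) (RichLoc o g s c K B (A / 2) (Ct / p) t)
  refine le_trans ?_ (le_of_eq j3.symm)
  apply Pr_mono okph
  intro F _ hF
  exact hRL.trl o g s c K B (A / 2) (Ct / p) t F hF

end Pool.Agent.W2helper82.OA.P17
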