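import Pool.Agent.W2helper82.OA.Stm

/-!
# Sums of powers of distances (copied from `H934R2/Expl/Mom.lean`, `Y989/FR/T_GOOD3.lean`, light imports)
-/

set_option autoImplicit false

namespace Pool.Agent.W2helper82.OA.P17

open H974 H12S Finset H984P H984N

theorem sum_rpow {a : ℝ} (ha : 0 ≤ a) (ha1 : a < 1) (D : ℕ) :
    ∑ d ∈ Finset.range D, ((d : ℝ) + 1) ^ (-a) ≤ (D : ℝ) ^ (1 - a) / (1 - a) := by
  have h1a : 0 < 1 - a := by linarith
  induction D with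
  | zero =>
    simp only [Finset.range_zero, Finset.sum_empty, Nat.cast_zero]
    rw [Real.zero_rpow h1a.ne']
    simp
  | succ D ih =>
    rw [Finset.sum_range_succ]
    have hD : (0:ℝ) < (D : ℝ) + 1 := by positivity
    have hb := rpow_one_add_le_one_add_mul_self (s := -(1 / ((D : ℝ) + 1))) (p := 1 - a)
      (by
        rw [neg_le_neg_iff, div_le_one hD]
        linarith [Nat.cast_nonneg (α := ℝ) D]) h1a.le (by linarith)
    have e1 : (1 : ℝ) + -(1 / ((D : ℝ) + 1)) = (D : ℝ) / ((D : ℝ) + 1) := by field_simp; ring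
    rw [e1, Real.div_rpow (Nat.cast_nonneg _) hD.le] at hb
    have hP : (0:ℝ) < ((D : ℝ) + 1) ^ (1 - a) := Real.rpow_pos_of_pos hD _
    rw [div_le_iff₀ hP] at hb
    have e2 : ((D : ℝ) + 1) ^ (-a) * ((D : ℝ) + 1) = ((D : ℝ) + 1) ^ (1 - a) := by
      rw [← Real.rpow_add_one hD.ne']
      congr 1; ring
    have e3 : ((D : ℝ) + 1) ^ (-a) = ((D : ℝ) + 1) ^ (1 - a) / ((D : ℝ) + 1) := by
      rw [← e2]; field_simp
    push_cast
    rw [e3]
    have e4 : (1 + (1 - a) * -(1 / ((D : ℝ) + 1))) * ((D : ℝ) + 1) ^ (1 - a) =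
        ((D : ℝ) + 1) ^ (1 - a) - (1 - a) * (((D : ℝ) + 1) ^ (1 - a) / ((D : ℝ) + 1)) := by
      field_simp
      ring
    rw [e4] at hb
    have h5 : (D : ℝ) ^ (1 - a) / (1 - a) ≤ (((D : ℝ) + 1) ^ (1 - a) -
        (1 - a) * (((D : ℝ) + 1) ^ (1 - a) / ((D : ℝ) + 1))) / (1 - a) :=
      div_le_div_of_nonneg_right hb h1a.le
    have h6 : (((D : ℝ) + 1) ^ (1 - a) -
        (1 - a) * (((D : ℝ) + 1) ^ (1 - a) / ((D : ℝ) + 1))) / (1 - a) =
        ((D : ℝ) + 1) ^ (1 - a) / (1 - a) - ((D : ℝ) + 1) ^ (1 - a) / ((D : ℝ) + 1) := by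
      field_simp
    rw [h6] at h5
    linarith

/-- Power of the distance of two different integers. -/
noncomputable def dp (a : ℝ) (k l : ℤ) : ℝ := |((k : ℝ) - l)| ^ (-a)

theorem dp_nonneg (a : ℝ) (k l : ℤ) : 0 ≤ dp a k l := Real.rpow_nonneg (abs_nonneg _) _

theorem dp_comm (a : ℝ) (k l : ℤ) : dp a k l = dp a l k := by
  unfold dp; rw [abs_sub_comm]

theorem sum_dp {a : ℝ} (ha : 0 ≤ a) (ha1 : a < 1) {u k : ℤ} {J : Finset ℤ} (hu : 0 ≤ u)
    (hJ : ∀ l ∈ J, |k - l| ≤ u) :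
    ∑ l ∈ J.erase k, dp a k l ≤ 2 * ((u : ℝ) ^ (1 - a) / (1 - a)) := by
  obtain ⟨n, rfl⟩ := Int.eq_ofNat_of_zero_le hu
  have h1 := sum_rpow ha ha1 n
  have hsub : J.erase k ⊆ (Finset.range n).image (fun d : ℕ => k + (d : ℤ) + 1) ∪
      (Finset.range n).image (fun d : ℕ => k - (d : ℤ) - 1) := by
    intro l hl
    rw [Finset.mem_erase] at hl
    have h2 := abs_le.mp (hJ l hl.2)
    rw [Finset.mem_union, Finset.mem_image, Finset.mem_image]
    rcases lt_or_gt_of_ne hl.1 with h3 | h3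
    · right
      refine ⟨(k - l - 1).toNat, ?_, ?_⟩
      · rw [Finset.mem_range]; omega
      · omega
    · left
      refine ⟨(l - k - 1).toNat, ?_, ?_⟩
      · rw [Finset.mem_range]; omega
      · omega
  have h2 : ∑ l ∈ J.erase k, dp a k l ≤
      ∑ l ∈ (Finset.range n).image (fun d : ℕ => k + (d : ℤ) + 1) ∪
      (Finset.range n).image (fun d : ℕ => k - (d : ℤ) - 1), dp a k l :=
    Finset.sum_le_sum_of_subset_of_nonneg hsub (fun _ _ _ => dp_nonneg _ _ _)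
  have h3 : ∑ l ∈ (Finset.range n).image (fun d : ℕ => k + (d : ℤ) + 1) ∪
      (Finset.range n).image (fun d : ℕ => k - (d : ℤ) - 1), dp a k l ≤
      ∑ l ∈ (Finset.range n).image (fun d : ℕ => k + (d : ℤ) + 1), dp a k l +
      ∑ l ∈ (Finset.range n).image (fun d : ℕ => k - (d : ℤ) - 1), dp a k l := by
    rw [← Finset.sum_union_inter]
    have : 0 ≤ ∑ l ∈ (Finset.range n).image (fun d : ℕ => k + (d : ℤ) + 1) ∩
      (Finset.range n).image (fun d : ℕ => k - (d : ℤ) - 1), dp a k l :=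
      Finset.sum_nonneg (fun _ _ => dp_nonneg _ _ _)
    linarith
  have h4 : ∑ l ∈ (Finset.range n).image (fun d : ℕ => k + (d : ℤ) + 1), dp a k l =
      ∑ d ∈ Finset.range n, ((d : ℝ) + 1) ^ (-a) := by
    rw [Finset.sum_image (by intro x _ y _ h; simp only at h; omega)]
    apply Finset.sum_congr rfl
    intro d _
    unfold dp
    congr 1
    push_cast
    rw [abs_sub_comm]
    have : (k : ℝ) + d + 1 - k = d + 1 := by ring
    rw [this, abs_of_nonneg (by positivity)]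
  have h5 : ∑ l ∈ (Finset.range n).image (fun d : ℕ => k - (d : ℤ) - 1), dp a k l =
      ∑ d ∈ Finset.range n, ((d : ℝ) + 1) ^ (-a) := by
    rw [Finset.sum_image (by intro x _ y _ h; simp only at h; omega)]
    apply Finset.sum_congr rfl
    intro d _
    unfold dp
    congr 1
    push_cast
    have : (k : ℝ) - (k - d - 1) = d + 1 := by ring
    rw [this, abs_of_nonneg (by positivity)]
  rw [h4, h5] at h3
  push_cast
  linarith

/-- one-dimensional sum -/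
theorem t5_one {b : ℝ} (hb : 0 ≤ b) (hb1 : b < 1) : ∀ h : ℤ, 1 ≤ h → ∀ (k : ℤ) (J : Finset ℤ),
    (∀ l ∈ J, |k - l| ≤ 2 * h) →
    ∑ l ∈ J, ((max |k - l| 1 : ℤ) : ℝ) ^ (-b) ≤ (1 + 4 / (1 - b)) * (h : ℝ) ^ (1 - b) := by
  intro h hh k J hJ
  have hb2 : 0 < 1 - b := by linarith
  have hh1 : (1:ℝ) ≤ h := by exact_mod_cast hh
  have hh0 : (0:ℝ) < h := by linarith
  have h1 := sum_dp hb hb1 (u := 2 * h) (k := k) (J := J) (by omega) hJ
  have hnn : ∀ l : ℤ, 0 ≤ ((max |k - l| 1 : ℤ) : ℝ) ^ (-b) := by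
    intro l
    apply Real.rpow_nonneg
    have : (0 : ℤ) ≤ max |k - l| 1 := le_trans zero_le_one (le_max_right _ _)
    exact_mod_cast this
  have h2 : ∑ l ∈ J.erase k, ((max |k - l| 1 : ℤ) : ℝ) ^ (-b) = ∑ l ∈ J.erase k, dp b k l := by
    apply Finset.sum_congr rfl
    intro l hl
    rw [Finset.mem_erase] at hl
    unfold dp
    have : (1 : ℤ) ≤ |k - l| := Int.one_le_abs (sub_ne_zero.mpr (fun e => hl.1 e.symm))
    rw [max_eq_left this]
    push_cast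
    rfl
  have h3 : ∑ l ∈ J, ((max |k - l| 1 : ℤ) : ℝ) ^ (-b) ≤
      1 + ∑ l ∈ J.erase k, ((max |k - l| 1 : ℤ) : ℝ) ^ (-b) := by
    by_cases hk : k ∈ J
    · rw [← Finset.add_sum_erase _ _ hk]
      simp
    · rw [Finset.erase_eq_of_notMem hk]
      linarith
  have h4 : (1:ℝ) ≤ (h : ℝ) ^ (1 - b) := Real.one_le_rpow hh1 hb2.le
  have h5 : (2 * (h : ℝ)) ^ (1 - b) ≤ 2 * (h : ℝ) ^ (1 - b) := by
    rw [Real.mul_rpow (by norm_num) hh0.le]
    apply mul_le_mul_of_nonneg_right _ (Real.rpow_nonneg hh0.le _)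
    calc (2:ℝ) ^ (1 - b) ≤ (2:ℝ) ^ (1:ℝ) :=
          Real.rpow_le_rpow_of_exponent_le (by norm_num) (by linarith)
      _ = 2 := Real.rpow_one _
  have h6 : 2 * ((((2 * h : ℤ) : ℝ)) ^ (1 - b) / (1 - b)) ≤ 4 / (1 - b) * (h : ℝ) ^ (1 - b) := by
    push_cast
    have : (2 * (h : ℝ)) ^ (1 - b) / (1 - b) ≤ 2 * (h : ℝ) ^ (1 - b) / (1 - b) :=
      div_le_div_of_nonneg_right h5 hb2.le
    calc _ ≤ 2 * (2 * (h : ℝ) ^ (1 - b) / (1 - b)) := by linarith
      _ = _ := by ring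
  rw [h2] at h3
  nlinarith

theorem t5_max_nonneg (a : ℤ) : (0:ℝ) ≤ ((max a 1 : ℤ) : ℝ) := by
  have : (0 : ℤ) ≤ max a 1 := le_trans zero_le_one (le_max_right _ _)
  exact_mod_cast this

theorem t5_max_pos (a : ℤ) : (0:ℝ) < ((max a 1 : ℤ) : ℝ) := by
  have : (0 : ℤ) < max a 1 := lt_of_lt_of_le zero_lt_one (le_max_right _ _)
  exact_mod_cast this



end Pool.Agent.W2helper82.OA.P17
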